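import Pool.Agent.Helper94.Mono.FaceSum
import Pool.Agent.Helper53.Comp.GoalsP

/-! Packet P1: the face sum with a real weight vector. -/

namespace Mono

namespace Comp

open Finset

variable {n : ℕ}

namespace P1

open Classical in
/-- The inner sum of `ZrealR`. -/
noncomputable def innR (w : Fin n → ℝ) (A : Finset (Fin n → ℤ)) (T : Fan n) (s : ℝ)
    (φ : Finset (Fin n → ℤ)) : ℝ :=
  ∑ δ ∈ T.faces.filter (fun δ => δ.card + dimF φ = n ∧ ∀ a ∈ δ, ∀ v ∈ φ, a ⬝ᵥ v = NA A a),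
      (idx (δ : Set (Fin n → ℤ)) : ℝ) / ∏ a ∈ δ, ((NA A a : ℝ) * s + w ⬝ᵥ toR a)

theorem ZrealR_eq (w : Fin n → ℝ) (A : Finset (Fin n → ℤ)) (T : Fan n) (s : ℝ) :
    ZrealR w A T s = ∑ φ ∈ cfaces A, cDL (dimF φ) s * (nvol φ : ℝ) * innR w A T s φ := rfl

open Classical in
theorem jsum_eqR (w : Fin n → ℝ) {A Z : Finset (Fin n → ℤ)} {Φ T : Fan n} (hT : Tri A Z Φ)
    {τ : Finset (Fin n → ℤ)} (hτ : CSimp A Φ τ) (s : ℝ) :
    Jsum A Z T τ s w =
      if τ.card = dimF (car A τ) + 1 then innR w A T s (car A τ) else 0 := by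
  have hle := card_le_car hT hτ
  have hpos : 0 < τ.card := Finset.card_pos.2 hτ.2.1
  split_ifs with hc
  · unfold Jsum innR
    have hfil : T.faces.filter (fun δ => δ.card + τ.card = n + 1 ∧ InDual A Z τ δ) =
        T.faces.filter (fun δ => δ.card + dimF (car A τ) = n ∧
          ∀ a ∈ δ, ∀ v ∈ car A τ, a ⬝ᵥ v = NA A a) := by
      refine Finset.filter_congr fun δ hδ => ?_
      rw [inDual_iff hT hτ ((Fan.mem_faces T).1 hδ)]
      refine and_congr_left fun _ => ?_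
      omega
    rw [hfil]
  · unfold Jsum
    have hfil : T.faces.filter (fun δ => δ.card + τ.card = n + 1 ∧ InDual A Z τ δ) = ∅ := by
      rw [Finset.filter_eq_empty_iff]
      rintro δ hδ ⟨h1, h2⟩
      have hδ' := (Fan.mem_faces T).1 hδ
      rw [inDual_iff hT hτ hδ'] at h2
      have := card_add_dimF_le (Fan.IsFace.indep T hδ') (fun a ha => ⟨NA A a, h2 a ha⟩)
      omega
    rw [hfil, Finset.sum_empty]

end P1

/-- Packet P1. -/
theorem faceSumR (h : NvolSum) : FaceSumR := by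
  intro n w A Z Φ T hT s
  classical
  rw [P1.ZrealR_eq]
  have h1 : ∀ τ ∈ Φ.faces.filter (fun τ => τ.Nonempty ∧ τ ⊆ A),
      cDL (τ.card - 1) s * (vol τ : ℝ) * Jsum A Z T τ s w =
      if τ.card = dimF (car A τ) + 1 then
        cDL (dimF (car A τ)) s * (vol τ : ℝ) * P1.innR w A T s (car A τ) else 0 := by
    intro τ hτ
    have hc : CSimp A Φ τ := csimp_iff.1 (Finset.mem_filter.1 hτ)
    rw [P1.jsum_eqR w hT hc]
    split_ifs with h2
    · rw [h2, Nat.add_sub_cancel]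
    · rw [mul_zero]
  rw [Finset.sum_congr rfl h1, ← Finset.sum_filter]
  rw [regroup hT _ (fun τ => ?_) (fun φ τ => cDL (dimF φ) s * (vol τ : ℝ) * P1.innR w A T s φ)]
  · refine Finset.sum_congr rfl fun φ hφ => ?_
    rw [h n A Z Φ hT φ hφ, ← Finset.sum_mul, ← Finset.mul_sum]
    push_cast
    rfl
  · rw [Finset.mem_filter, Finset.mem_filter, csimp_iff]

end Comp

end Mono
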